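import Pool.Agent.H65.AD.TargetsC

/-!
# MP_347b49_nt, row DCM: the decomposition of the main part
-/

set_option autoImplicit false

open MeasureTheory Set Filter
open scoped Real

namespace Pool.Agent.H54.ADM

open Pool.Agent.H31.CN Pool.Agent.H95.AD Pool.Agent.H50.CN Pool.Agent.H65.AD

theorem loc_le (q : ℕ → ℕ → ℝ) (p e A : ℕ) :
    |loc q p e A| ≤ ∑ i ∈ Finset.range 3, ∑ k ∈ Finset.range 3, |q i k| := by
  unfold loc
  refine (Finset.abs_sum_le_sum_abs _ _).trans (Finset.sum_le_sum fun i _ => ?_)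
  refine (Finset.abs_sum_le_sum_abs _ _).trans (Finset.sum_le_sum fun k _ => ?_)
  split_ifs
  · exact le_rfl
  · rw [abs_zero]
    exact abs_nonneg _

theorem ec_sum (c j : ℕ) (hc : c < 3) (hj : j < 3) :
    ∑ i ∈ Finset.range 3, ∑ k ∈ Finset.range 3, |ec c j i k| ≤ if c = 2 then 4 else 6 := by
  interval_cases c <;> interval_cases j <;>
    simp only [Finset.sum_range_succ, Finset.sum_range_zero, ec] <;> norm_num

theorem loc_ec_le (c j p e A : ℕ) (hc : c < 3) (hj : j < 3) :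
    |loc (ec c j) p e A| ≤ if c = 2 then 4 else 6 :=
  (loc_le _ p e A).trans (ec_sum c j hc hj)

theorem loc_qT_le (x : ℤ) (hx : x = 1 ∨ x = 0 ∨ x = -1) (j p e A : ℕ) (hj : j < 3) :
    |loc (qT x j) p e A| ≤ 12 := by
  have h : loc (qT x j) p e A = loc (ec 0 j) p e A + ((x : ℝ) * loc (ec 1 j) p e A +
      (if x = 0 then 1 else 0) * loc (ec 2 j) p e A) := by
    unfold loc
    simp only [Finset.mul_sum, ← Finset.sum_add_distrib]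
    refine Finset.sum_congr rfl fun i _ => Finset.sum_congr rfl fun k _ => ?_
    unfold qT
    split_ifs <;> ring
  have h0 := abs_le.1 (loc_ec_le 0 j p e A (by norm_num) hj)
  have h1 := abs_le.1 (loc_ec_le 1 j p e A (by norm_num) hj)
  have h2 := abs_le.1 (loc_ec_le 2 j p e A (by norm_num) hj)
  rw [if_neg (by norm_num)] at h0 h1
  rw [if_pos rfl] at h2
  rw [h, abs_le]
  rcases hx with rfl | rfl | rfl
  · norm_num
    constructor <;> linarith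
  · norm_num
    constructor <;> linarith
  · norm_num
    constructor <;> linarith

theorem tt_lt (p m₁ m₂ : ℕ) : tt p m₁ m₂ < 3 := by
  unfold tt
  split_ifs <;> norm_num

theorem cl_lt (r t p : ℕ) : cl r t p < 3 := by
  unfold cl
  split_ifs <;> norm_num

theorem prod_bound (k : ℕ) (hk : k ≠ 0) (g : ℕ → ℝ) (hg : ∀ p, |g p| ≤ 12) :
    |∏ p ∈ k.primeFactors, g p| ≤ 2 * (k : ℝ) ^ 3 := by
  rw [Finset.abs_prod]
  have h1 : ∏ p ∈ k.primeFactors, |g p| ≤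
      ∏ p ∈ k.primeFactors, ((if p = 2 then 2 else 1) * (p : ℝ) ^ 3) := by
    refine Finset.prod_le_prod (fun p _ => abs_nonneg _) fun p hp => (hg p).trans ?_
    have hp2 := (Nat.prime_of_mem_primeFactors hp).two_le
    by_cases h : p = 2
    · rw [if_pos h, h]
      norm_num
    · rw [if_neg h, one_mul]
      have h3 : (3 : ℝ) ≤ p := by
        have : 3 ≤ p := by omega
        exact_mod_cast this
      calc (12 : ℝ) ≤ 3 ^ 3 := by norm_num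
        _ ≤ (p : ℝ) ^ 3 := by gcongr
  refine h1.trans ?_
  rw [Finset.prod_mul_distrib, Finset.prod_pow]
  have h2 : ∏ p ∈ k.primeFactors, (if p = 2 then (2 : ℝ) else 1) ≤ 2 := by
    rw [Finset.prod_ite_eq']
    split_ifs <;> norm_num
  have h3 : (∏ p ∈ k.primeFactors, (p : ℝ)) ≤ k := by
    have := Nat.le_of_dvd (Nat.pos_of_ne_zero hk) (Nat.prod_primeFactors_dvd k)
    have h := (Nat.cast_le (α := ℝ)).2 this
    rwa [Nat.cast_prod] at h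
  have h4 : 0 ≤ ∏ p ∈ k.primeFactors, (p : ℝ) := Finset.prod_nonneg fun p _ => Nat.cast_nonneg p
  have h5 : (0 : ℝ) ≤ (∏ p ∈ k.primeFactors, (p : ℝ)) ^ 3 := pow_nonneg h4 3
  calc _ ≤ 2 * (∏ p ∈ k.primeFactors, (p : ℝ)) ^ 3 := mul_le_mul_of_nonneg_right h2 h5
    _ ≤ 2 * (k : ℝ) ^ 3 := by gcongr

theorem flat (A B : Finset ℕ) (a c : ℕ → ℝ) (F : ℕ → ℕ → ℕ → ℕ → ℝ) :
    ∑ n₁ ∈ A, ∑ n₂ ∈ A, a n₁ * a n₂ * ∑ m₁ ∈ B, ∑ m₂ ∈ B, c m₁ * c m₂ * F n₁ n₂ m₁ m₂ =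
      ∑ q ∈ A ×ˢ A ×ˢ B ×ˢ B, a q.1 * a q.2.1 * (c q.2.2.1 * c q.2.2.2) *
        F q.1 q.2.1 q.2.2.1 q.2.2.2 := by
  rw [Finset.sum_product]
  refine Finset.sum_congr rfl fun n₁ _ => ?_
  rw [Finset.sum_product]
  refine Finset.sum_congr rfl fun n₂ _ => ?_
  rw [Finset.sum_product, Finset.mul_sum]
  refine Finset.sum_congr rfl fun m₁ _ => ?_
  rw [Finset.mul_sum]
  refine Finset.sum_congr rfl fun m₂ _ => ?_
  ring

theorem flat_gr (A B : Finset ℕ) (a c : ℕ → ℝ) (F : ℕ → ℕ → GR) (G : ℕ → ℕ → GR) (l : ℝ) :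
    Ph l ((∑ n₁ ∈ A, ∑ n₂ ∈ A, (a n₁ * a n₂) • F n₁ n₂) *
      ∑ m₁ ∈ B, ∑ m₂ ∈ B, (c m₁ * c m₂) • G m₁ m₂) =
      ∑ q ∈ A ×ˢ A ×ˢ B ×ˢ B, a q.1 * a q.2.1 * (c q.2.2.1 * c q.2.2.2) *
        Ph l (F q.1 q.2.1 * G q.2.2.1 q.2.2.2) := by
  rw [← flat A B a c fun n₁ n₂ m₁ m₂ => Ph l (F n₁ n₂ * G m₁ m₂), Finset.sum_mul, map_sum]
  refine Finset.sum_congr rfl fun n₁ _ => ?_
  rw [Finset.sum_mul, map_sum]
  refine Finset.sum_congr rfl fun n₂ _ => ?_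
  rw [Finset.mul_sum, map_sum, Finset.mul_sum]
  refine Finset.sum_congr rfl fun m₁ _ => ?_
  rw [Finset.mul_sum, map_sum, Finset.mul_sum]
  refine Finset.sum_congr rfl fun m₂ _ => ?_
  rw [smul_mul_smul_comm, map_smul, smul_eq_mul]
  ring

theorem xD_le {r D : ℕ} (h : ∀ p, p.Prime → chi p D = 1 ∨ chi p D = 0 ∨ chi p D = -1) :
    |xD r D| ≤ 1 := by
  unfold xD
  rw [Finset.abs_prod]
  refine Finset.prod_le_one (fun p _ => abs_nonneg _) fun p hp => ?_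
  rcases h p (Nat.prime_of_mem_primeFactors hp) with h | h | h <;> rw [h] <;> norm_num

theorem sqf_of {N n m : ℕ} (hNs : Squarefree N) (hn : n ∣ N) (hm : Squarefree m)
    (hc : Nat.Coprime m N) : Squarefree (n * m) :=
  (Nat.squarefree_mul_iff).2 ⟨(hc.coprime_dvd_right hn).symm, hNs.squarefree_of_dvd hn, hm⟩

/-- the sum for a pair `(r, t)`, truncated -/
noncomputable def Bs (N D n₁ n₂ m₁ m₂ : ℕ) (X δ : ℝ) (z : ℕ × ℕ) : ℝ :=
  ∑ y ∈ Bx X δ (n₁ * n₂ * (m₁ * m₂)), kM D (n₁ * n₂ * (m₁ * m₂)) y.1 y.2 *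
    lN N (fun p => chi p D) n₁ n₂ y.1 y.2 * LL z.1 z.2 m₁ m₂ y.1 y.2

/-- the sign of the pair `(r, t)` -/
noncomputable def xs (D : ℕ) (z : ℕ × ℕ) : ℝ := xD z.1 D * (if z.2 ∣ D then 1 else 0)

theorem quad (hUCV : T_UCV) (hEXP : T_EXP) (hUCG : T_UCG)
    {N D n₁ n₂ m₁ m₂ Y : ℕ} {X δ W ε CL : ℝ} (hN : 1 ≤ N) (hNs : Squarefree N)
    (hn1 : n₁ ∣ N) (hn2 : n₂ ∣ N) (hm1 : Squarefree m₁) (hm2 : Squarefree m₂)
    (hc1 : Nat.Coprime m₁ N) (hc2 : Nat.Coprime m₂ N) (hD3 : 3 < D) (hD4 : D % 4 = 3)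
    (hDs : Squarefree D)
    (hchi : ∀ p, p.Prime → chi p D = 1 ∨ chi p D = 0 ∨ chi p D = -1)
    (hY : ∀ y ∈ Bx X δ (n₁ * n₂ * (m₁ * m₂)), y.2 * (m₁ * m₂) ≤ Y)
    (hK : ∀ f : ℕ → ℕ → ℝ, (∀ e A, 1 ≤ e → 1 ≤ A → |f e A| ≤ X ^ (10 : ℝ) * ((e : ℝ) * A) ^ 3) →
      ∀ S : ℝ, HasSum (fun y : ℕ × ℕ => kM D (n₁ * n₂ * (m₁ * m₂)) y.1 y.2 * f y.1 y.2) S →
      |S - ∑ y ∈ Bx X δ (n₁ * n₂ * (m₁ * m₂)), kM D (n₁ * n₂ * (m₁ * m₂)) y.1 y.2 * f y.1 y.2| ≤ ε)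
    (hb1 : 2 * ((n₁ * n₂ * (m₁ * m₂) : ℕ) : ℝ) ^ 3 ≤ X ^ (10 : ℝ))
    (hCL : ∀ e A, |lN N (fun p => chi p D) n₁ n₂ e A| ≤ CL)
    (hb2 : ∀ z ∈ (idx N Y).filter (fun x => ((x.1 * x.2 : ℕ) : ℝ) ≤ W),
      CL * (2 * ((m₁ * m₂ * (z.1 * z.2) : ℕ) : ℝ) ^ 3) ≤ X ^ (10 : ℝ)) :
    |Uc (n₁ * m₁) (n₂ * m₂) D -
      ∑ z ∈ (idx N Y).filter (fun x => ((x.1 * x.2 : ℕ) : ℝ) ≤ W), xs D z *
        Ph (Real.log (Real.sqrt D)) ((∏ p ∈ N.primeFactors, gel (qT (chi p D) (tt p n₁ n₂))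
          (tt p n₁ n₂) p) * LG z.1 z.2 m₁ m₂) -
      ∑ z ∈ idT N Y W, xs D z * Bs N D n₁ n₂ m₁ m₂ X δ z| ≤
      ε * (1 + ((idx N Y).filter (fun x => ((x.1 * x.2 : ℕ) : ℝ) ≤ W)).card) := by
  have hN0 : N ≠ 0 := by omega
  have hn10 : n₁ ≠ 0 := fun h => hN0 (Nat.eq_zero_of_zero_dvd (h ▸ hn1))
  have hn20 : n₂ ≠ 0 := fun h => hN0 (Nat.eq_zero_of_zero_dvd (h ▸ hn2))
  have hm10 := hm1.ne_zero
  have hm20 := hm2.ne_zero
  have hnn : (n₁ * m₁) * (n₂ * m₂) = n₁ * n₂ * (m₁ * m₂) := by ring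
  have hchi' : ∀ p : ℕ, chi p D = 1 ∨ chi p D = 0 ∨ chi p D = -1 ∨ ¬ p.Prime := by
    intro p
    by_cases hp : p.Prime
    · rcases hchi p hp with h | h | h
      · exact Or.inl h
      · exact Or.inr (Or.inl h)
      · exact Or.inr (Or.inr (Or.inl h))
    · exact Or.inr (Or.inr (Or.inr hp))
  have hε : 0 ≤ ε := (abs_nonneg _).trans (hK (fun _ _ => 0) (fun e A _ _ => by
    rw [abs_zero]
    by_cases hX : 0 ≤ X ^ (10 : ℝ)
    · positivity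
    · exact absurd ((by positivity : (0 : ℝ) ≤ 2 * ((n₁ * n₂ * (m₁ * m₂) : ℕ) : ℝ) ^ 3).trans hb1)
        hX) 0 (by
      simp only [mul_zero]
      exact hasSum_zero))
  -- the first sum
  have hU := hUCV D (n₁ * m₁) (n₂ * m₂) hD3 hD4 hDs (sqf_of hNs hn1 hm1 hc1)
    (sqf_of hNs hn2 hm2 hc2)
  rw [hnn] at hU
  have g1 := hK (fun e A => ∏ p ∈ (A * (n₁ * n₂ * (m₁ * m₂))).primeFactors,
    loc (qT (chi p D) (tt p (n₁ * m₁) (n₂ * m₂))) p e A) (by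
      intro e A he hA
      have h1 : |∏ p ∈ (A * (n₁ * n₂ * (m₁ * m₂))).primeFactors,
          loc (qT (chi p D) (tt p (n₁ * m₁) (n₂ * m₂))) p e A| ≤
          2 * ((A * (n₁ * n₂ * (m₁ * m₂)) : ℕ) : ℝ) ^ 3 := by
        have h2 := prod_bound (A * (n₁ * n₂ * (m₁ * m₂))) (by
            have : A ≠ 0 := by omega
            positivity)
          (fun p => if p.Prime then loc (qT (chi p D) (tt p (n₁ * m₁) (n₂ * m₂))) p e A else 1)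
          (fun p => by
            show |if p.Prime then loc (qT (chi p D) (tt p (n₁ * m₁) (n₂ * m₂))) p e A else 1| ≤ 12
            split_ifs with hp
            · exact loc_qT_le _ (hchi p hp) _ _ _ _ (tt_lt _ _ _)
            · norm_num)
        refine le_trans (le_of_eq ?_) h2
        congr 1
        refine Finset.prod_congr rfl fun p hp => ?_
        rw [if_pos (Nat.prime_of_mem_primeFactors hp)]
      refine h1.trans ?_
      have he1 : (1 : ℝ) ≤ (e : ℝ) ^ 3 := by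
        have : (1 : ℝ) ≤ e := by exact_mod_cast he
        exact one_le_pow₀ this
      have hA1 : (0 : ℝ) ≤ (A : ℝ) ^ 3 := by positivity
      have hX0 : 0 ≤ X ^ (10 : ℝ) :=
        (by positivity : (0 : ℝ) ≤ 2 * ((n₁ * n₂ * (m₁ * m₂) : ℕ) : ℝ) ^ 3).trans hb1
      calc 2 * ((A * (n₁ * n₂ * (m₁ * m₂)) : ℕ) : ℝ) ^ 3
          = (2 * ((n₁ * n₂ * (m₁ * m₂) : ℕ) : ℝ) ^ 3) * (1 * (A : ℝ) ^ 3) := by
            push_cast
            ring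
        _ ≤ X ^ (10 : ℝ) * ((e : ℝ) ^ 3 * (A : ℝ) ^ 3) := by gcongr
        _ = X ^ (10 : ℝ) * ((e : ℝ) * A) ^ 3 := by ring) _ hU
  have g2 : ∑ y ∈ Bx X δ (n₁ * n₂ * (m₁ * m₂)), kM D (n₁ * n₂ * (m₁ * m₂)) y.1 y.2 *
      ∏ p ∈ (y.2 * (n₁ * n₂ * (m₁ * m₂))).primeFactors,
        loc (qT (chi p D) (tt p (n₁ * m₁) (n₂ * m₂))) p y.1 y.2 =
      ∑ z ∈ idx N Y, xs D z * Bs N D n₁ n₂ m₁ m₂ X δ z := by
    unfold Bs
    simp only [Finset.mul_sum]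
    rw [Finset.sum_comm]
    refine Finset.sum_congr rfl fun y hy => ?_
    obtain ⟨hy1, -⟩ := Finset.mem_filter.1 hy
    obtain ⟨hy2, hy3⟩ := Finset.mem_product.1 hy1
    have h1 := hEXP D N m₁ m₂ n₁ n₂ y.1 y.2 Y hD4 hDs hN hNs hm1 hm2 hc1 hc2 hn1 hn2
      (Finset.mem_Icc.1 hy2).1 (Finset.mem_Icc.1 hy3).1 (hY y hy)
    rw [hnn] at h1
    rw [h1, Finset.mul_sum, Finset.mul_sum]
    refine Finset.sum_congr rfl fun z _ => ?_
    unfold xs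
    ring
  have g3 : ∑ z ∈ idx N Y, xs D z * Bs N D n₁ n₂ m₁ m₂ X δ z =
      ∑ z ∈ (idx N Y).filter (fun x => ((x.1 * x.2 : ℕ) : ℝ) ≤ W),
        xs D z * Bs N D n₁ n₂ m₁ m₂ X δ z +
      ∑ z ∈ idT N Y W, xs D z * Bs N D n₁ n₂ m₁ m₂ X δ z := by
    rw [← Finset.sum_filter_add_sum_filter_not (idx N Y) (fun x => ((x.1 * x.2 : ℕ) : ℝ) ≤ W)]
    congr 1
    refine Finset.sum_congr ?_ fun _ _ => rfl
    unfold idT
    exact Finset.filter_congr fun x _ => not_le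
  have g4 : ∀ z ∈ (idx N Y).filter (fun x => ((x.1 * x.2 : ℕ) : ℝ) ≤ W),
      |Ph (Real.log (Real.sqrt D)) ((∏ p ∈ N.primeFactors, gel (qT (chi p D) (tt p n₁ n₂))
          (tt p n₁ n₂) p) * LG z.1 z.2 m₁ m₂) - Bs N D n₁ n₂ m₁ m₂ X δ z| ≤ ε := by
    intro z hz
    obtain ⟨hz1, hz2⟩ := Finset.mem_filter.1 hz
    obtain ⟨-, hz3, hz4⟩ := Finset.mem_filter.1 hz1
    have hD0 : (0 : ℝ) < D := by
      have : 0 < D := by omega
      exact_mod_cast this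
    have h1 := hUCG N n₁ n₂ m₁ m₂ z.1 z.2 (fun p => chi p D) D hN hNs hn1 hn2 hm1 hm2 hc1 hc2 hz3
      hz4 hD0
    rw [show (fun y : ℕ × ℕ => kM D (n₁ * n₂ * (m₁ * m₂)) y.1 y.2 *
        lN N (fun p => chi p D) n₁ n₂ y.1 y.2 * LL z.1 z.2 m₁ m₂ y.1 y.2) =
        fun y : ℕ × ℕ => kM D (n₁ * n₂ * (m₁ * m₂)) y.1 y.2 *
        (lN N (fun p => chi p D) n₁ n₂ y.1 y.2 * LL z.1 z.2 m₁ m₂ y.1 y.2) from
        funext fun y => mul_assoc _ _ _] at h1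
    have h2 := hK (fun e A => lN N (fun p => chi p D) n₁ n₂ e A * LL z.1 z.2 m₁ m₂ e A) (by
      intro e A he hA
      have hzz : z.1 * z.2 ≠ 0 := hz3.ne_zero
      have h3 : |LL z.1 z.2 m₁ m₂ e A| ≤ 2 * ((m₁ * m₂ * (z.1 * z.2) : ℕ) : ℝ) ^ 3 := by
        refine prod_bound _ (by positivity) _ fun p => ?_
        refine (loc_ec_le _ _ _ _ _ (cl_lt _ _ _) (tt_lt _ _ _)).trans ?_
        split_ifs <;> norm_num
      have hCL0 : 0 ≤ CL := (abs_nonneg _).trans (hCL e A)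
      have h4 : |lN N (fun p => chi p D) n₁ n₂ e A * LL z.1 z.2 m₁ m₂ e A| ≤ X ^ (10 : ℝ) := by
        rw [abs_mul]
        exact (mul_le_mul (hCL e A) h3 (abs_nonneg _) hCL0).trans (hb2 z hz)
      refine h4.trans ?_
      have he1 : (1 : ℝ) ≤ e := by exact_mod_cast he
      have hA1 : (1 : ℝ) ≤ A := by exact_mod_cast hA
      have hX0 : 0 ≤ X ^ (10 : ℝ) := (abs_nonneg _).trans h4
      exact le_mul_of_one_le_right hX0 (one_le_pow₀ (one_le_mul_of_one_le_of_one_le he1 hA1))) _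
      h1
    have h5 : Bs N D n₁ n₂ m₁ m₂ X δ z = ∑ y ∈ Bx X δ (n₁ * n₂ * (m₁ * m₂)),
        kM D (n₁ * n₂ * (m₁ * m₂)) y.1 y.2 *
          (lN N (fun p => chi p D) n₁ n₂ y.1 y.2 * LL z.1 z.2 m₁ m₂ y.1 y.2) :=
      Finset.sum_congr rfl fun y _ => mul_assoc _ _ _
    rw [h5]
    exact h2
  have g5 : ∀ z, |xs D z| ≤ 1 := by
    intro z
    unfold xs
    rw [abs_mul]
    refine mul_le_one₀ (xD_le hchi) (abs_nonneg _) ?_
    split_ifs <;> norm_num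
  rw [g2, g3] at g1
  set U := Uc (n₁ * m₁) (n₂ * m₂) D
  set S1 := ∑ z ∈ idT N Y W, xs D z * Bs N D n₁ n₂ m₁ m₂ X δ z
  set F := (idx N Y).filter (fun x => ((x.1 * x.2 : ℕ) : ℝ) ≤ W)
  have g6 : |∑ z ∈ F, xs D z * (Ph (Real.log (Real.sqrt D)) ((∏ p ∈ N.primeFactors,
      gel (qT (chi p D) (tt p n₁ n₂)) (tt p n₁ n₂) p) * LG z.1 z.2 m₁ m₂) -
        Bs N D n₁ n₂ m₁ m₂ X δ z)| ≤ ε * F.card := by
    refine (Finset.abs_sum_le_sum_abs _ _).trans ?_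
    have : ε * F.card = ∑ z ∈ F, ε := by
      rw [Finset.sum_const, nsmul_eq_mul, mul_comm]
    rw [this]
    refine Finset.sum_le_sum fun z hz => ?_
    rw [abs_mul]
    exact (mul_le_mul (g5 z) (g4 z hz) (abs_nonneg _) zero_le_one).trans (one_mul ε).le
  have g7 : ∑ z ∈ F, xs D z * (Ph (Real.log (Real.sqrt D)) ((∏ p ∈ N.primeFactors,
      gel (qT (chi p D) (tt p n₁ n₂)) (tt p n₁ n₂) p) * LG z.1 z.2 m₁ m₂) -
        Bs N D n₁ n₂ m₁ m₂ X δ z) = ∑ z ∈ F, xs D z * Ph (Real.log (Real.sqrt D))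
          ((∏ p ∈ N.primeFactors, gel (qT (chi p D) (tt p n₁ n₂)) (tt p n₁ n₂) p) *
            LG z.1 z.2 m₁ m₂) - ∑ z ∈ F, xs D z * Bs N D n₁ n₂ m₁ m₂ X δ z := by
    rw [← Finset.sum_sub_distrib]
    exact Finset.sum_congr rfl fun z _ => mul_sub _ _ _
  rw [g7] at g6
  have g8 := abs_le.1 g1
  have g9 := abs_le.1 g6
  rw [abs_le]
  constructor <;> nlinarith [g8.1, g8.2, g9.1, g9.2]

theorem idx_eq (N Y : ℕ) (W : ℝ) (hWY : ⌊W⌋₊ ≤ Y) :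
    (idx N ⌊W⌋₊).filter (fun x => ((x.1 * x.2 : ℕ) : ℝ) ≤ W) =
      (idx N Y).filter (fun x => ((x.1 * x.2 : ℕ) : ℝ) ≤ W) := by
  ext x
  simp only [idx, Finset.mem_filter, Finset.mem_product, Finset.mem_Icc]
  constructor
  · rintro ⟨⟨⟨⟨h1, h2⟩, h3, h4⟩, h5⟩, h6⟩
    exact ⟨⟨⟨⟨h1, h2.trans hWY⟩, h3, h4.trans hWY⟩, h5⟩, h6⟩
  · rintro ⟨⟨⟨⟨h1, h2⟩, h3, h4⟩, h5⟩, h6⟩
    refine ⟨⟨⟨⟨h1, Nat.le_floor (le_trans ?_ h6)⟩, h3, Nat.le_floor (le_trans ?_ h6)⟩, h5⟩, h6⟩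
    · exact_mod_cast Nat.le_mul_of_pos_right _ h3
    · exact_mod_cast Nat.le_mul_of_pos_left _ h1

theorem card_small (N Y : ℕ) (W : ℝ) (hW : 0 ≤ W) (hWY : ⌊W⌋₊ ≤ Y) :
    (((idx N Y).filter (fun x => ((x.1 * x.2 : ℕ) : ℝ) ≤ W)).card : ℝ) ≤ W ^ 2 := by
  rw [← idx_eq N Y W hWY]
  have h1 : ((idx N ⌊W⌋₊).filter (fun x => ((x.1 * x.2 : ℕ) : ℝ) ≤ W)).card ≤
      ⌊W⌋₊ * ⌊W⌋₊ := by
    refine (Finset.card_filter_le _ _).trans ((Finset.card_filter_le _ _).trans ?_)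
    rw [Finset.card_product, Nat.card_Icc, Nat.add_sub_cancel]
  have h2 : ((⌊W⌋₊ : ℕ) : ℝ) ≤ W := Nat.floor_le hW
  calc _ ≤ ((⌊W⌋₊ * ⌊W⌋₊ : ℕ) : ℝ) := by exact_mod_cast h1
    _ = (⌊W⌋₊ : ℝ) * ⌊W⌋₊ := by push_cast; ring
    _ ≤ W * W := by gcongr
    _ = W ^ 2 := by ring

theorem pf_DCM (hUCV : T_UCV) (hUCD : T_UCD) (hEXP : T_EXP) (hUCG : T_UCG) (hKTL : T_KTL)
    (hCHV : T_CHV) (hSGN : T_SGN) : T_DCM := by
  intro P N θ δ η hN h2N hNs hθ hδ h4 hη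
  obtain ⟨Cc, hCc0, hCc⟩ := cm_le P
  obtain ⟨CS, hCS0, hCS⟩ := hSGN N hN hNs
  obtain ⟨X₁, hX₁⟩ := hKTL N θ δ η hN hθ hδ (by linarith) hη
  obtain ⟨X₂, hX₂⟩ : ∃ X₂ : ℝ, ∀ X, X₂ ≤ X → Real.log X ^ (200 : ℝ) ≤ X ^ (1 / 2 : ℝ) := by
    have h1 := (isLittleO_log_rpow_rpow_atTop (200 : ℝ) (show (0 : ℝ) < 1 / 2 by norm_num)).bound
      (show (0 : ℝ) < 1 by norm_num)
    obtain ⟨X₂, h2⟩ := Filter.eventually_atTop.1 h1
    refine ⟨max X₂ 1, fun X hX => ?_⟩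
    have h3 := h2 X ((le_max_left _ _).trans hX)
    have hX1 : 1 ≤ X := (le_max_right _ _).trans hX
    rw [one_mul, Real.norm_of_nonneg (Real.rpow_nonneg (Real.log_nonneg hX1) _),
      Real.norm_of_nonneg (Real.rpow_nonneg (by linarith) _)] at h3
    exact h3
  set K : ℝ := (N.divisors.card : ℝ) ^ 2 * (CS ^ 2 * Cc ^ 2) with hKdef
  have hK0 : 0 ≤ K := by positivity
  refine ⟨max (max X₁ X₂) (max 2 (K + 2 * (N : ℝ) ^ 6 + 2 * CS)), fun X hX D hD => ?_⟩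
  have hXX₁ : X₁ ≤ X := ((le_max_left _ _).trans (le_max_left _ _)).trans hX
  have hXX₂ : X₂ ≤ X := ((le_max_right _ _).trans (le_max_left _ _)).trans hX
  have hX2 : 2 ≤ X := ((le_max_left _ _).trans (le_max_right _ _)).trans hX
  have hXK' : K + 2 * (N : ℝ) ^ 6 + 2 * CS ≤ X :=
    ((le_max_right _ _).trans (le_max_right _ _)).trans hX
  have hN6 : (0 : ℝ) ≤ 2 * (N : ℝ) ^ 6 := by positivity
  have hXK : K ≤ X := by linarith
  have hXN : 2 * (N : ℝ) ^ 6 ≤ X := by linarith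
  have hXC : 2 * CS ≤ X := by linarith
  have hX1 : (1 : ℝ) ≤ X := by linarith
  have hX0 : (0 : ℝ) < X := by linarith
  -- the discriminant
  obtain ⟨hD1, hD2⟩ := Finset.mem_filter.1 hD
  obtain ⟨hD3, hD4, hD5, hD6⟩ := Finset.mem_filter.1 hD1
  have hDX : (D : ℝ) ≤ X := by
    have := (Finset.mem_Icc.1 hD3).2
    exact (Nat.cast_le.2 this).trans (Nat.floor_le hX0.le)
  have hchi : ∀ p, p.Prime → chi p D = 1 ∨ chi p D = 0 ∨ chi p D = -1 := fun p hp =>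
    (hCHV D p hD5 hp).1
  obtain ⟨-, -, hCS'⟩ := hCS (fun p => chi p D) fun p hp =>
    hchi p (Nat.prime_of_mem_primeFactors hp)
  -- the parameters
  set M : ℝ := X ^ θ with hM
  set W : ℝ := Real.log X ^ (200 : ℝ) with hW
  set Y : ℕ := ⌊(N : ℝ) ^ 2 * X ^ (1 / 2 + 4 * θ + δ)⌋₊ with hY
  set s : ℝ := X ^ (1 / 4 : ℝ) with hs
  have hs1 : 1 ≤ s := Real.one_le_rpow hX1 (by norm_num)
  have hs4 : s ^ 4 = X := by
    rw [hs, ← Real.rpow_natCast, ← Real.rpow_mul hX0.le]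
    norm_num
  have hs2 : X ^ (1 / 2 : ℝ) = s ^ 2 := by
    rw [hs, ← Real.rpow_natCast, ← Real.rpow_mul hX0.le]
    norm_num
  have hM1 : 1 < M := Real.one_lt_rpow (by linarith) hθ
  have hM2 : M ^ 2 = X ^ (2 * θ) := by
    rw [hM, ← Real.rpow_natCast, ← Real.rpow_mul hX0.le]
    congr 1
    push_cast
    ring
  have hM2s : M ^ 2 ≤ s := by
    rw [hM2, hs]
    exact Real.rpow_le_rpow_of_exponent_le hX1 (by linarith)
  have hW0 : 0 ≤ W := Real.rpow_nonneg (Real.log_nonneg hX1) _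
  have hWs : W ≤ s ^ 2 := by
    rw [← hs2]
    exact hX₂ X hXX₂
  have hN1 : (1 : ℝ) ≤ N := by exact_mod_cast hN
  have hWY : ⌊W⌋₊ ≤ Y := by
    refine Nat.floor_le_floor (hWs.trans ?_)
    rw [← hs2]
    calc X ^ (1 / 2 : ℝ) ≤ X ^ (1 / 2 + 4 * θ + δ) :=
          Real.rpow_le_rpow_of_exponent_le hX1 (by linarith)
      _ ≤ (N : ℝ) ^ 2 * X ^ (1 / 2 + 4 * θ + δ) :=
          le_mul_of_one_le_left (Real.rpow_nonneg hX0.le _) (one_le_pow₀ hN1)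
  set F := (idx N Y).filter (fun x => ((x.1 * x.2 : ℕ) : ℝ) ≤ W) with hF
  have hcF : (F.card : ℝ) ≤ s ^ 4 := by
    refine (card_small N Y W hW0 hWY).trans ?_
    calc W ^ 2 ≤ (s ^ 2) ^ 2 := by gcongr
      _ = s ^ 4 := by ring
  set B := Finset.Icc 1 ⌊M⌋₊ with hB
  set Q := N.divisors ×ˢ N.divisors ×ˢ B ×ˢ B with hQ
  set a : ℕ → ℝ := anx N (fun p => chi p D) with ha
  set c : ℕ → ℝ := cm P M N with hc
  set cq : ℕ × ℕ × ℕ × ℕ → ℝ := fun q => a q.1 * a q.2.1 * (c q.2.2.1 * c q.2.2.2) with hcq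
  have e1 : MD P M N D = ∑ q ∈ Q, cq q * Uc (q.1 * q.2.2.1) (q.2.1 * q.2.2.2) D := by
    unfold MD
    rw [hUCD P M N D (fun x y => Uc x y D) hN hNs hM1.le]
    exact flat _ _ a c fun n₁ n₂ m₁ m₂ => Uc (n₁ * m₁) (n₂ * m₂) D
  have e2 : Sm P M N W D = ∑ z ∈ F, xs D z * ∑ q ∈ Q, cq q * Ph (Real.log (Real.sqrt D))
      ((∏ p ∈ N.primeFactors, gel (qT (chi p D) (tt p q.1 q.2.1)) (tt p q.1 q.2.1) p) *
        LG z.1 z.2 q.2.2.1 q.2.2.2) := by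
    unfold Sm
    rw [idx_eq N Y W hWY]
    refine Finset.sum_congr rfl fun z _ => ?_
    have h1 := flat_gr N.divisors B a c (fun n₁ n₂ => ∏ p ∈ N.primeFactors,
      gel (qT (chi p D) (tt p n₁ n₂)) (tt p n₁ n₂) p) (fun m₁ m₂ => LG z.1 z.2 m₁ m₂)
      (Real.log (Real.sqrt D))
    rw [← h1]
    rfl
  have e3 : TF P M N X δ Y W (fun p => chi p D) (kM D) D = ∑ z ∈ idT N Y W,
      xs D z * ∑ q ∈ Q, cq q * Bs N D q.1 q.2.1 q.2.2.1 q.2.2.2 X δ z := by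
    unfold TF
    refine Finset.sum_congr rfl fun z _ => ?_
    have h1 := flat N.divisors B a c fun n₁ n₂ m₁ m₂ => Bs N D n₁ n₂ m₁ m₂ X δ z
    rw [← h1]
    rfl
  have e4 : MD P M N D - Sm P M N W D - TF P M N X δ Y W (fun p => chi p D) (kM D) D =
      ∑ q ∈ Q, cq q * (Uc (q.1 * q.2.2.1) (q.2.1 * q.2.2.2) D -
        ∑ z ∈ F, xs D z * Ph (Real.log (Real.sqrt D)) ((∏ p ∈ N.primeFactors,
          gel (qT (chi p D) (tt p q.1 q.2.1)) (tt p q.1 q.2.1) p) * LG z.1 z.2 q.2.2.1 q.2.2.2) -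
        ∑ z ∈ idT N Y W, xs D z * Bs N D q.1 q.2.1 q.2.2.1 q.2.2.2 X δ z) := by
    rw [e1, e2, e3]
    simp only [mul_sub, Finset.sum_sub_distrib, Finset.mul_sum]
    congr 1
    · congr 1
      rw [Finset.sum_comm]
      exact Finset.sum_congr rfl fun q _ => Finset.sum_congr rfl fun z _ => by ring
    · rw [Finset.sum_comm]
      exact Finset.sum_congr rfl fun q _ => Finset.sum_congr rfl fun z _ => by ring
  rw [e4]
  have hx10 : (0 : ℝ) < X ^ (-10 : ℝ) := Real.rpow_pos_of_pos hX0 _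
  have key : ∀ q ∈ Q, |cq q * (Uc (q.1 * q.2.2.1) (q.2.1 * q.2.2.2) D -
        ∑ z ∈ F, xs D z * Ph (Real.log (Real.sqrt D)) ((∏ p ∈ N.primeFactors,
          gel (qT (chi p D) (tt p q.1 q.2.1)) (tt p q.1 q.2.1) p) * LG z.1 z.2 q.2.2.1 q.2.2.2) -
        ∑ z ∈ idT N Y W, xs D z * Bs N D q.1 q.2.1 q.2.2.1 q.2.2.2 X δ z)| ≤
      CS ^ 2 * Cc ^ 2 * (X ^ (-10 : ℝ) * (1 + s ^ 4)) := by
    rintro ⟨n₁, n₂, m₁, m₂⟩ hq
    simp only [hQ, Finset.mem_product, hB, Finset.mem_Icc, Nat.mem_divisors] at hq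
    obtain ⟨⟨hn1, -⟩, ⟨hn2, -⟩, ⟨hm11, hm12⟩, ⟨hm21, hm22⟩⟩ := hq
    have hpos : 0 ≤ CS ^ 2 * Cc ^ 2 * (X ^ (-10 : ℝ) * (1 + s ^ 4)) := by positivity
    by_cases h0 : cq (n₁, n₂, m₁, m₂) = 0
    · rw [h0, zero_mul, abs_zero]
      exact hpos
    have hcm1 : c m₁ ≠ 0 := fun h => h0 (by simp only [hcq, h, zero_mul, mul_zero])
    have hcm2 : c m₂ ≠ 0 := fun h => h0 (by simp only [hcq, h, mul_zero])
    have hcc : ∀ m, c m ≠ 0 → Squarefree m ∧ Nat.Coprime m N ∧ (m : ℝ) ≤ M := by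
      intro m hm
      simp only [hc, cm] at hm
      split_ifs at hm with h
      · refine ⟨?_, h.2, h.1⟩
        have h1 : mr m ≠ 0 := left_ne_zero_of_mul hm
        unfold mr at h1
        by_contra h2
        exact h1 (by rw [ArithmeticFunction.moebius_eq_zero_of_not_squarefree h2]; norm_num)
      · exact absurd rfl hm
    obtain ⟨hs1', hco1, hmM1⟩ := hcc m₁ hcm1
    obtain ⟨hs2', hco2, hmM2⟩ := hcc m₂ hcm2
    have hnN1 : (n₁ : ℝ) ≤ N := by exact_mod_cast Nat.le_of_dvd (by omega) hn1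
    have hnN2 : (n₂ : ℝ) ≤ N := by exact_mod_cast Nat.le_of_dvd (by omega) hn2
    have hM0 : 0 ≤ M := by linarith
    have hmm : (m₁ : ℝ) * m₂ ≤ M ^ 2 := by
      rw [sq]
      gcongr
    have hnm : ((n₁ * n₂ * (m₁ * m₂) : ℕ) : ℝ) ≤ (N : ℝ) ^ 2 * M ^ 2 := by
      push_cast
      have h1 : (n₁ : ℝ) * n₂ ≤ (N : ℝ) ^ 2 := by
        rw [sq]
        gcongr
      exact mul_le_mul h1 hmm (by positivity) (by positivity)
    have hN0 : N ≠ 0 := by omega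
    have hn10 : n₁ ≠ 0 := fun h => hN0 (Nat.eq_zero_of_zero_dvd (h ▸ hn1))
    have hn20 : n₂ ≠ 0 := fun h => hN0 (Nat.eq_zero_of_zero_dvd (h ▸ hn2))
    have hnpos : 1 ≤ n₁ * n₂ * (m₁ * m₂) := by
      have := Nat.pos_of_ne_zero hn10
      have := Nat.pos_of_ne_zero hn20
      have : 0 < n₁ * n₂ * (m₁ * m₂) := by positivity
      omega
    have hX10 : X ^ (10 : ℝ) = (s ^ 4) ^ 10 := by
      rw [hs4]
      exact_mod_cast Real.rpow_natCast X 10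
    have hR := quad (ε := X ^ (-10 : ℝ)) (CL := CS) (Y := Y) (W := W) (X := X) (δ := δ) hUCV hEXP
      hUCG hN hNs hn1 hn2 hs1' hs2' hco1 hco2 hD4 hD5 hD6 hchi (by
        intro y hy
        obtain ⟨hy1, hy2⟩ := Finset.mem_filter.1 hy
        obtain ⟨hy3, -⟩ := Finset.mem_product.1 hy1
        have hy4 : (1 : ℝ) ≤ y.1 := by exact_mod_cast (Finset.mem_Icc.1 hy3).1
        refine Nat.le_floor ?_
        push_cast
        have h1 : (y.2 : ℝ) ≤ (N : ℝ) ^ 2 * M ^ 2 * X ^ (1 / 2 + δ) := by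
          calc (y.2 : ℝ) ≤ (y.1 : ℝ) ^ 2 * y.2 :=
                le_mul_of_one_le_left (Nat.cast_nonneg _) (one_le_pow₀ hy4)
            _ ≤ _ := hy2
            _ ≤ _ := mul_le_mul_of_nonneg_right hnm (Real.rpow_nonneg hX0.le _)
        calc (y.2 : ℝ) * (m₁ * m₂) ≤ ((N : ℝ) ^ 2 * M ^ 2 * X ^ (1 / 2 + δ)) * M ^ 2 :=
              mul_le_mul h1 hmm (by positivity) (by positivity)
          _ = (N : ℝ) ^ 2 * (X ^ (2 * θ) * X ^ (1 / 2 + δ) * X ^ (2 * θ)) := by rw [hM2]; ring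
          _ = (N : ℝ) ^ 2 * X ^ (1 / 2 + 4 * θ + δ) := by
              rw [← Real.rpow_add hX0, ← Real.rpow_add hX0]
              congr 2
              ring)
      (fun f hf S hS => hX₁ X hXX₁ D (n₁ * n₂ * (m₁ * m₂)) hD2 hDX hnpos (by
        rw [← hM2]
        exact hnm) f hf S hS) (by
        rw [hX10]
        calc 2 * ((n₁ * n₂ * (m₁ * m₂) : ℕ) : ℝ) ^ 3 ≤ 2 * ((N : ℝ) ^ 2 * M ^ 2) ^ 3 := by gcongr
          _ ≤ 2 * ((N : ℝ) ^ 2 * s) ^ 3 := by gcongr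
          _ = (2 * (N : ℝ) ^ 6) * s ^ 3 := by ring
          _ ≤ s ^ 4 * s ^ 3 := by
              rw [← hs4] at hXN
              gcongr
          _ = s ^ 7 := by ring
          _ ≤ s ^ 40 := pow_le_pow_right₀ hs1 (by norm_num)
          _ = (s ^ 4) ^ 10 := by ring) (fun e A => (hCS' n₁ n₂ e A).2) (by
        intro z hz
        have hz1 := (Finset.mem_filter.1 hz).2
        rw [hX10]
        have h1 : ((m₁ * m₂ * (z.1 * z.2) : ℕ) : ℝ) ≤ s * s ^ 2 := by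
          push_cast
          push_cast at hz1
          exact mul_le_mul (hmm.trans hM2s) (hz1.trans hWs) (by positivity) (by linarith)
        have hCS1 : 2 * CS ≤ s ^ 4 := by rw [hs4]; exact hXC
        calc CS * (2 * ((m₁ * m₂ * (z.1 * z.2) : ℕ) : ℝ) ^ 3)
            = (2 * CS) * ((m₁ * m₂ * (z.1 * z.2) : ℕ) : ℝ) ^ 3 := by ring
          _ ≤ s ^ 4 * (s * s ^ 2) ^ 3 := by gcongr
          _ = s ^ 13 := by ring
          _ ≤ s ^ 40 := pow_le_pow_right₀ hs1 (by norm_num)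
          _ = (s ^ 4) ^ 10 := by ring)
    rw [abs_mul]
    have hcqb : |cq (n₁, n₂, m₁, m₂)| ≤ CS ^ 2 * Cc ^ 2 := by
      simp only [hcq, abs_mul]
      have h1 := fun n => (hCS' n 1 1 1).1
      have h2 := hCc M N m₁ hM1 hm11
      have h3 := hCc M N m₂ hM1 hm21
      calc |a n₁| * |a n₂| * (|c m₁| * |c m₂|) ≤ CS * CS * (Cc * Cc) := by
            have := h1 n₁
            have := h1 n₂
            gcongr
        _ = CS ^ 2 * Cc ^ 2 := by ring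
    refine mul_le_mul hcqb (hR.trans ?_) (abs_nonneg _) (by positivity)
    gcongr
  refine (Finset.abs_sum_le_sum_abs _ _).trans ((Finset.sum_le_sum key).trans ?_)
  rw [Finset.sum_const, nsmul_eq_mul]
  have hcQ : (Q.card : ℝ) ≤ (N.divisors.card : ℝ) ^ 2 * s := by
    simp only [hQ, Finset.card_product, hB, Nat.card_Icc, Nat.add_sub_cancel]
    push_cast
    have h1 : (⌊M⌋₊ : ℝ) ≤ M := Nat.floor_le (by linarith)
    have hM0 : 0 ≤ M := by linarith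
    calc (N.divisors.card : ℝ) * (N.divisors.card * ((⌊M⌋₊ : ℝ) * ⌊M⌋₊))
        ≤ (N.divisors.card : ℝ) * (N.divisors.card * (M * M)) := by gcongr
      _ = (N.divisors.card : ℝ) ^ 2 * M ^ 2 := by ring
      _ ≤ _ := by gcongr
  have hx10' : X ^ (-10 : ℝ) = ((s ^ 4) ^ 10)⁻¹ := by
    rw [Real.rpow_neg hX0.le, hs4]
    congr 1
    exact_mod_cast Real.rpow_natCast X 10
  have hx1' : X ^ (-1 : ℝ) = (s ^ 4)⁻¹ := by
    rw [Real.rpow_neg_one, hs4]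
  rw [hx10', hx1']
  have hs0 : 0 < s := by linarith
  have hKs : K ≤ s ^ 4 := by rw [hs4]; exact hXK
  have h2s : 2 ≤ s ^ 4 := by rw [hs4]; exact hX2
  have h1s : 1 ≤ s ^ 4 := one_le_pow₀ hs1
  calc (Q.card : ℝ) * (CS ^ 2 * Cc ^ 2 * (((s ^ 4) ^ 10)⁻¹ * (1 + s ^ 4)))
      ≤ ((N.divisors.card : ℝ) ^ 2 * s) * (CS ^ 2 * Cc ^ 2 * (((s ^ 4) ^ 10)⁻¹ * (1 + s ^ 4))) := by
        gcongr
    _ = K * s * (1 + s ^ 4) * ((s ^ 4) ^ 10)⁻¹ := by rw [hKdef]; ring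
    _ ≤ s ^ 4 * s * (s ^ 4 + s ^ 4) * ((s ^ 4) ^ 10)⁻¹ := by gcongr
    _ = 2 * s ^ 9 * ((s ^ 4) ^ 10)⁻¹ := by ring
    _ ≤ s ^ 4 * s ^ 9 * ((s ^ 4) ^ 10)⁻¹ := by gcongr
    _ = s ^ 13 * ((s ^ 4) ^ 10)⁻¹ := by ring
    _ ≤ s ^ 36 * ((s ^ 4) ^ 10)⁻¹ := by
        have := pow_le_pow_right₀ hs1 (show 13 ≤ 36 by norm_num)
        gcongr
    _ = (s ^ 4)⁻¹ := by
        field_simp

end Pool.Agent.H54.ADM
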