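import Pool.Agent.H65.AD.TargetsA

/-!
# MP_347b49_nt, row EXP: the product over the primes, expanded
-/

set_option autoImplicit false

open MeasureTheory Set Filter
open scoped Real

namespace Pool.Agent.H54.ADM

open Pool.Agent.H31.CN Pool.Agent.H95.AD Pool.Agent.H50.CN Pool.Agent.H65.AD

theorem loc_qT (x : ℤ) (j p e A : ℕ) : loc (qT x j) p e A =
    (x : ℝ) * loc (ec 1 j) p e A + ((if x = 0 then 1 else 0) * loc (ec 2 j) p e A +
      loc (ec 0 j) p e A) := by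
  unfold loc
  simp only [Finset.mul_sum, ← Finset.sum_add_distrib]
  refine Finset.sum_congr rfl fun i _ => Finset.sum_congr rfl fun k _ => ?_
  unfold qT
  split_ifs <;> ring

theorem loc_zero (p e A : ℕ) : loc (ec 0 0) p e A = 1 := by
  simp [loc, Finset.sum_range_succ, ec]

theorem loc_one (p e A : ℕ) (h : ¬ p ∣ A) : loc (ec 1 0) p e A = 0 := by
  have h2 : ¬ p ^ 2 ∣ A := fun h' => h ((dvd_pow_self p two_ne_zero).trans h')
  simp [loc, Finset.sum_range_succ, ec, h]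

theorem loc_two (p e A : ℕ) (h : ¬ p ∣ A) : loc (ec 2 0) p e A = 0 := by
  have h2 : ¬ p ^ 2 ∣ A := fun h' => h ((dvd_pow_self p two_ne_zero).trans h')
  simp [loc, Finset.sum_range_succ, ec, h2]

theorem loc_qT_one (x : ℤ) (p e A : ℕ) (h : ¬ p ∣ A) : loc (qT x 0) p e A = 1 := by
  rw [loc_qT, loc_one p e A h, loc_two p e A h, loc_zero]
  ring

theorem primeFactors_prod' {S : Finset ℕ} (hS : ∀ p ∈ S, p.Prime) :
    (∏ p ∈ S, p).primeFactors = S := Nat.primeFactors_prod hS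

theorem sqf_prod {S : Finset ℕ} (hS : ∀ p ∈ S, p.Prime) : Squarefree (∏ p ∈ S, p) := by
  refine Finset.squarefree_prod_of_pairwise_isCoprime ?_ fun p hp => (hS p hp).squarefree
  intro p hp q hq hpq
  exact Nat.coprime_iff_isRelPrime.1 ((Nat.coprime_primes (hS p hp) (hS q hq)).2 hpq)

theorem dvd_of_primeFactors {R : Finset ℕ} {n : ℕ} (h : R ⊆ n.primeFactors) :
    ∏ p ∈ R, p ∣ n :=
  (Finset.prod_dvd_prod_of_subset _ _ _ h).trans (Nat.prod_primeFactors_dvd n)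

/-- the expansion over the pairs of disjoint sets -/
theorem expand (S : Finset ℕ) (a b c : ℕ → ℝ) :
    ∏ p ∈ S, (b p + (c p + a p)) = ∑ x ∈ S.powerset.sigma (fun R => (S \ R).powerset),
      (∏ p ∈ x.1, b p) * ((∏ p ∈ x.2, c p) * ∏ p ∈ (S \ x.1) \ x.2, a p) := by
  rw [Finset.prod_add, Finset.sum_sigma]
  refine Finset.sum_congr rfl fun R _ => ?_
  rw [Finset.prod_add, Finset.mul_sum]

theorem main {D N m₁ m₂ e A Y : ℕ} (hcm : ∀ p, p.Prime → (chi p D = 0 ↔ p ∣ D)) (hN : 1 ≤ N)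
    (hm1 : 1 ≤ m₁) (hm2 : 1 ≤ m₂) (h1 : Nat.Coprime m₁ N) (h2 : Nat.Coprime m₂ N) (hA : 1 ≤ A)
    (hY : A * (m₁ * m₂) ≤ Y) :
    ∏ p ∈ (A * (m₁ * m₂)).primeFactors \ N.primeFactors,
      loc (qT (chi p D) (tt p m₁ m₂)) p e A =
      ∑ z ∈ idx N Y, xD z.1 D * (if z.2 ∣ D then 1 else 0) * LL z.1 z.2 m₁ m₂ e A := by
  classical
  set S := (A * (m₁ * m₂)).primeFactors \ N.primeFactors with hS
  have hA0 : A * (m₁ * m₂) ≠ 0 := by positivity
  have hSp : ∀ p ∈ S, p.Prime := fun p hp =>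
    Nat.prime_of_mem_primeFactors (Finset.mem_sdiff.1 hp).1
  have hSN : ∀ p ∈ S, ¬ p ∣ N := fun p hp h =>
    (Finset.mem_sdiff.1 hp).2 (Nat.mem_primeFactors.2 ⟨hSp p hp, h, by omega⟩)
  have hSd : ∀ R : Finset ℕ, R ⊆ S → ∏ p ∈ R, p ≤ Y := fun R hR =>
    (Nat.le_of_dvd (Nat.pos_of_ne_zero hA0) (dvd_of_primeFactors
      (hR.trans Finset.sdiff_subset))).trans hY
  have hSc : ∀ R : Finset ℕ, R ⊆ S → Nat.Coprime (∏ p ∈ R, p) N := fun R hR =>
    Nat.Coprime.prod_left fun p hp => (Nat.Prime.coprime_iff_not_dvd (hSp p (hR hp))).2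
      (hSN p (hR hp))
  -- the terms outside vanish
  have hz : ∑ z ∈ idx N Y, xD z.1 D * (if z.2 ∣ D then 1 else 0) * LL z.1 z.2 m₁ m₂ e A =
      ∑ z ∈ (idx N Y).filter (fun z => (z.1 * z.2).primeFactors ⊆ S),
        xD z.1 D * (if z.2 ∣ D then 1 else 0) * LL z.1 z.2 m₁ m₂ e A := by
    rw [Finset.sum_filter]
    refine Finset.sum_congr rfl fun z hz => ?_
    by_cases h3 : (z.1 * z.2).primeFactors ⊆ S
    · rw [if_pos h3]
    · rw [if_neg h3]
      obtain ⟨p, hp, hpS⟩ := Finset.not_subset.1 h3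
      have hp1 := Nat.prime_of_mem_primeFactors hp
      have hp2 := Nat.dvd_of_mem_primeFactors hp
      have hz1 := Finset.mem_filter.1 hz
      have hz0 : z.1 * z.2 ≠ 0 := hz1.2.1.ne_zero
      have hpN : ¬ p ∣ N := fun h => hp1.one_lt.ne' (Nat.dvd_one.1 (hz1.2.2 ▸ Nat.dvd_gcd hp2 h))
      have hpA : ¬ p ∣ A * (m₁ * m₂) := fun h => hpS (Finset.mem_sdiff.2
        ⟨Nat.mem_primeFactors.2 ⟨hp1, h, hA0⟩, fun h' => hpN (Nat.dvd_of_mem_primeFactors h')⟩)
      have hpA' : ¬ p ∣ A := fun h => hpA (h.mul_right _)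
      have ht : tt p m₁ m₂ = 0 := by
        unfold tt
        rw [if_neg fun h => hpA ((h.mul_right _).mul_left _),
          if_neg fun h => hpA ((h.mul_left _).mul_left _)]
      have h0 : LL z.1 z.2 m₁ m₂ e A = 0 := by
        unfold LL
        refine Finset.prod_eq_zero (i := p) (Nat.mem_primeFactors.2 ⟨hp1, hp2.mul_left _, by
          positivity⟩) ?_
        rw [ht]
        rcases (hp1.dvd_mul).1 hp2 with h | h
        · rw [cl, if_pos h]
          exact loc_one p e A hpA'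
        · by_cases h' : p ∣ z.1
          · rw [cl, if_pos h']
            exact loc_one p e A hpA'
          · rw [cl, if_neg h', if_pos h]
            exact loc_two p e A hpA'
      rw [h0, mul_zero]
  rw [hz]
  have hexp : ∀ p ∈ S, loc (qT (chi p D) (tt p m₁ m₂)) p e A =
      (chi p D : ℝ) * loc (ec 1 (tt p m₁ m₂)) p e A + ((if p ∣ D then 1 else 0) *
        loc (ec 2 (tt p m₁ m₂)) p e A + loc (ec 0 (tt p m₁ m₂)) p e A) := by
    intro p hp
    rw [loc_qT]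
    congr 3
    exact if_congr (hcm p (hSp p hp)) rfl rfl
  rw [Finset.prod_congr rfl hexp, expand]
  refine Finset.sum_bij' (fun x _ => (∏ p ∈ x.1, p, ∏ p ∈ x.2, p))
    (fun z _ => ⟨z.1.primeFactors, z.2.primeFactors⟩) ?_ ?_ ?_ ?_ ?_
  · rintro ⟨R, T⟩ hx
    obtain ⟨hR, hT⟩ := Finset.mem_sigma.1 hx
    rw [Finset.mem_powerset] at hR hT
    have hT' : T ⊆ S := hT.trans Finset.sdiff_subset
    have hdis : Disjoint R T := Finset.disjoint_right.2 fun p hp => (Finset.mem_sdiff.1 (hT hp)).2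
    have hpr : (∏ p ∈ R, p) * (∏ p ∈ T, p) = ∏ p ∈ R ∪ T, p := (Finset.prod_union hdis).symm
    have hRT : R ∪ T ⊆ S := Finset.union_subset hR hT'
    have hpos : ∀ U : Finset ℕ, U ⊆ S → 1 ≤ ∏ p ∈ U, p := fun U hU =>
      Finset.prod_pos fun p hp => (hSp p (hU hp)).pos
    refine Finset.mem_filter.2 ⟨Finset.mem_filter.2 ⟨Finset.mem_product.2
      ⟨Finset.mem_Icc.2 ⟨hpos R hR, hSd R hR⟩, Finset.mem_Icc.2 ⟨hpos T hT', hSd T hT'⟩⟩, ?_, ?_⟩,
      ?_⟩
    · show Squarefree ((∏ p ∈ R, p) * (∏ p ∈ T, p))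
      rw [hpr]
      exact sqf_prod fun p hp => hSp p (hRT hp)
    · show Nat.Coprime ((∏ p ∈ R, p) * (∏ p ∈ T, p)) N
      rw [hpr]
      exact hSc _ hRT
    · show ((∏ p ∈ R, p) * (∏ p ∈ T, p)).primeFactors ⊆ S
      rw [hpr, primeFactors_prod' fun p hp => hSp p (hRT hp)]
      exact hRT
  · rintro ⟨r, t⟩ hz
    obtain ⟨h3, h4⟩ := Finset.mem_filter.1 hz
    obtain ⟨-, h5, -⟩ := Finset.mem_filter.1 h3
    simp only at h4 h5
    have hrt : Nat.Coprime r t := Nat.coprime_of_squarefree_mul h5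
    rw [Nat.primeFactors_mul (left_ne_zero_of_mul h5.ne_zero) (right_ne_zero_of_mul h5.ne_zero)]
      at h4
    refine Finset.mem_sigma.2 ⟨Finset.mem_powerset.2 (Finset.union_subset_left h4),
      Finset.mem_powerset.2 fun p hp => Finset.mem_sdiff.2
        ⟨Finset.union_subset_right h4 hp, fun h => ?_⟩⟩
    exact Finset.disjoint_left.1 hrt.disjoint_primeFactors h hp
  · rintro ⟨R, T⟩ hx
    obtain ⟨hR, hT⟩ := Finset.mem_sigma.1 hx
    rw [Finset.mem_powerset] at hR hT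
    have hT' : T ⊆ S := hT.trans Finset.sdiff_subset
    show (⟨(∏ p ∈ R, p).primeFactors, (∏ p ∈ T, p).primeFactors⟩ : Σ _ : Finset ℕ, Finset ℕ) =
      ⟨R, T⟩
    rw [primeFactors_prod' fun p hp => hSp p (hR hp), primeFactors_prod' fun p hp => hSp p (hT' hp)]
  · rintro ⟨r, t⟩ hz
    obtain ⟨h3, h4⟩ := Finset.mem_filter.1 hz
    obtain ⟨-, h5, -⟩ := Finset.mem_filter.1 h3
    simp only at h5
    show (∏ p ∈ r.primeFactors, p, ∏ p ∈ t.primeFactors, p) = (r, t)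
    rw [Nat.prod_primeFactors_of_squarefree h5.of_mul_left,
      Nat.prod_primeFactors_of_squarefree h5.of_mul_right]
  · rintro ⟨R, T⟩ hx
    obtain ⟨hR, hT⟩ := Finset.mem_sigma.1 hx
    rw [Finset.mem_powerset] at hR hT
    have hT' : T ⊆ S := hT.trans Finset.sdiff_subset
    have hdis : Disjoint R T := Finset.disjoint_right.2 fun p hp => (Finset.mem_sdiff.1 (hT hp)).2
    have hpr : (∏ p ∈ R, p) * (∏ p ∈ T, p) = ∏ p ∈ R ∪ T, p := (Finset.prod_union hdis).symm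
    have hRT : R ∪ T ⊆ S := Finset.union_subset hR hT'
    have hRp : ∀ p ∈ R, p.Prime := fun p hp => hSp p (hR hp)
    have hTp : ∀ p ∈ T, p.Prime := fun p hp => hSp p (hT' hp)
    show (∏ p ∈ R, (chi p D : ℝ) * loc (ec 1 (tt p m₁ m₂)) p e A) *
      ((∏ p ∈ T, (if p ∣ D then 1 else 0) * loc (ec 2 (tt p m₁ m₂)) p e A) *
        ∏ p ∈ (S \ R) \ T, loc (ec 0 (tt p m₁ m₂)) p e A) =
      xD (∏ p ∈ R, p) D * (if (∏ p ∈ T, p) ∣ D then 1 else 0) *
        LL (∏ p ∈ R, p) (∏ p ∈ T, p) m₁ m₂ e A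
    have hxD : xD (∏ p ∈ R, p) D = ∏ p ∈ R, (chi p D : ℝ) := by
      unfold xD
      rw [primeFactors_prod' hRp]
    have hTD : (if (∏ p ∈ T, p) ∣ D then (1 : ℝ) else 0) = ∏ p ∈ T, (if p ∣ D then 1 else 0) := by
      by_cases h : ∀ p ∈ T, p ∣ D
      · rw [if_pos (Finset.prod_primes_dvd D (fun p hp => (hTp p hp).prime) h)]
        exact (Finset.prod_eq_one fun p hp => if_pos (h p hp)).symm
      · push Not at h
        obtain ⟨p, hp, hpD⟩ := h
        rw [if_neg fun h' => hpD ((Finset.dvd_prod_of_mem _ hp).trans h')]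
        exact (Finset.prod_eq_zero hp (if_neg hpD)).symm
    -- the product `LL` as a product over `S`
    have hdR : ∀ p, p.Prime → (p ∣ ∏ p ∈ R, p ↔ p ∈ R) := by
      intro p hp
      rw [hp.prime.dvd_finset_prod_iff]
      constructor
      · rintro ⟨q, hq, hpq⟩
        rwa [(Nat.prime_dvd_prime_iff_eq hp (hRp q hq)).1 hpq]
      · intro h
        exact ⟨p, h, dvd_rfl⟩
    have hdT : ∀ p, p.Prime → (p ∣ ∏ p ∈ T, p ↔ p ∈ T) := by
      intro p hp
      rw [hp.prime.dvd_finset_prod_iff]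
      constructor
      · rintro ⟨q, hq, hpq⟩
        rwa [(Nat.prime_dvd_prime_iff_eq hp (hTp q hq)).1 hpq]
      · intro h
        exact ⟨p, h, dvd_rfl⟩
    have hpne : m₁ * m₂ * ((∏ p ∈ R, p) * ∏ p ∈ T, p) ≠ 0 := by
      have : (∏ p ∈ R, p) * ∏ p ∈ T, p ≠ 0 := by
        rw [hpr]
        exact Finset.prod_ne_zero_iff.2 fun p hp => (hSp p (hRT hp)).ne_zero
      positivity
    have hsub : (m₁ * m₂ * ((∏ p ∈ R, p) * ∏ p ∈ T, p)).primeFactors ⊆ S := by
      intro p hp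
      have hp1 := Nat.prime_of_mem_primeFactors hp
      rcases (hp1.dvd_mul).1 (Nat.dvd_of_mem_primeFactors hp) with h | h
      · refine Finset.mem_sdiff.2 ⟨Nat.mem_primeFactors.2 ⟨hp1, h.mul_left _, hA0⟩, fun h' => ?_⟩
        have h'' := Nat.dvd_of_mem_primeFactors h'
        exact hp1.one_lt.ne' (Nat.dvd_one.1 ((Nat.Coprime.mul_left h1 h2) ▸ Nat.dvd_gcd h h''))
      · rcases (hp1.dvd_mul).1 h with h | h
        · exact hR ((hdR p hp1).1 h)
        · exact hT' ((hdT p hp1).1 h)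
    have hLL : LL (∏ p ∈ R, p) (∏ p ∈ T, p) m₁ m₂ e A =
        ∏ p ∈ S, loc (ec (cl (∏ p ∈ R, p) (∏ p ∈ T, p) p) (tt p m₁ m₂)) p e A := by
      unfold LL
      refine Finset.prod_subset hsub fun p hp hp' => ?_
      have hp1 := hSp p hp
      have hnd : ¬ p ∣ m₁ * m₂ * ((∏ p ∈ R, p) * ∏ p ∈ T, p) := fun h =>
        hp' (Nat.mem_primeFactors.2 ⟨hp1, h, hpne⟩)
      rw [cl, if_neg fun h => hnd ((h.mul_right _).mul_left _),
        if_neg fun h => hnd ((h.mul_left _).mul_left _), tt,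
        if_neg fun h => hnd ((h.mul_right _).mul_right _),
        if_neg fun h => hnd ((h.mul_left _).mul_right _)]
      exact loc_zero p e A
    rw [hxD, hTD, hLL, ← Finset.prod_sdiff hR, ← Finset.prod_sdiff hT]
    have e1 : ∏ p ∈ R, loc (ec (cl (∏ p ∈ R, p) (∏ p ∈ T, p) p) (tt p m₁ m₂)) p e A =
        ∏ p ∈ R, loc (ec 1 (tt p m₁ m₂)) p e A := by
      refine Finset.prod_congr rfl fun p hp => ?_
      rw [cl, if_pos ((hdR p (hRp p hp)).2 hp)]
    have e2 : ∏ p ∈ T, loc (ec (cl (∏ p ∈ R, p) (∏ p ∈ T, p) p) (tt p m₁ m₂)) p e A =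
        ∏ p ∈ T, loc (ec 2 (tt p m₁ m₂)) p e A := by
      refine Finset.prod_congr rfl fun p hp => ?_
      rw [cl, if_neg fun h => (Finset.mem_sdiff.1 (hT hp)).2 ((hdR p (hTp p hp)).1 h),
        if_pos ((hdT p (hTp p hp)).2 hp)]
    have e3 : ∏ p ∈ (S \ R) \ T, loc (ec (cl (∏ p ∈ R, p) (∏ p ∈ T, p) p) (tt p m₁ m₂)) p e A =
        ∏ p ∈ (S \ R) \ T, loc (ec 0 (tt p m₁ m₂)) p e A := by
      refine Finset.prod_congr rfl fun p hp => ?_
      obtain ⟨hp1, hp2⟩ := Finset.mem_sdiff.1 hp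
      obtain ⟨hp3, hp4⟩ := Finset.mem_sdiff.1 hp1
      rw [cl, if_neg fun h => hp4 ((hdR p (hSp p hp3)).1 h),
        if_neg fun h => hp2 ((hdT p (hSp p hp3)).1 h)]
    rw [e1, e2, e3, Finset.prod_mul_distrib, Finset.prod_mul_distrib]
    ring

theorem pf_EXP (hCHV : T_CHV) : T_EXP := by
  classical
  intro D N m₁ m₂ n₁ n₂ e A Y hD4 hD hN hNs hm1 hm2 h1 h2 hn1 hn2 he hA hY
  have hN0 : N ≠ 0 := by omega
  have hm10 := hm1.ne_zero
  have hm20 := hm2.ne_zero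
  have hn10 : n₁ ≠ 0 := fun h => hN0 (Nat.eq_zero_of_zero_dvd (h ▸ hn1))
  have hn20 : n₂ ≠ 0 := fun h => hN0 (Nat.eq_zero_of_zero_dvd (h ▸ hn2))
  rw [← main (e := e) (fun p hp => (hCHV D p hD4 hp).2) hN (Nat.pos_of_ne_zero hm10)
    (Nat.pos_of_ne_zero hm20) h1 h2 hA hY]
  have hA0 : A ≠ 0 := by omega
  have hne : A * ((n₁ * m₁) * (n₂ * m₂)) ≠ 0 := by positivity
  have hA2 : A * (m₁ * m₂) ≠ 0 := by positivity
  set S := (A * (m₁ * m₂)).primeFactors \ N.primeFactors with hS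
  have hpN : ∀ p, p.Prime → p ∣ N → tt p (n₁ * m₁) (n₂ * m₂) = tt p n₁ n₂ := by
    intro p hp hpN
    have g1 : ¬ p ∣ m₁ := fun h => hp.one_lt.ne' (Nat.dvd_one.1 (h1 ▸ Nat.dvd_gcd h hpN))
    have g2 : ¬ p ∣ m₂ := fun h => hp.one_lt.ne' (Nat.dvd_one.1 (h2 ▸ Nat.dvd_gcd h hpN))
    have g3 : (p ∣ n₁ * m₁ ↔ p ∣ n₁) :=
      ⟨fun h => ((hp.dvd_mul).1 h).resolve_right g1, fun h => h.mul_right _⟩
    have g4 : (p ∣ n₂ * m₂ ↔ p ∣ n₂) :=
      ⟨fun h => ((hp.dvd_mul).1 h).resolve_right g2, fun h => h.mul_right _⟩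
    unfold tt
    rw [if_congr g3 rfl rfl, if_congr g4 rfl rfl]
  have hpN' : ∀ p, p.Prime → ¬ p ∣ N → tt p (n₁ * m₁) (n₂ * m₂) = tt p m₁ m₂ := by
    intro p hp hpN
    have g3 : (p ∣ n₁ * m₁ ↔ p ∣ m₁) :=
      ⟨fun h => ((hp.dvd_mul).1 h).resolve_left fun h' => hpN (h'.trans hn1),
        fun h => h.mul_left _⟩
    have g4 : (p ∣ n₂ * m₂ ↔ p ∣ m₂) :=
      ⟨fun h => ((hp.dvd_mul).1 h).resolve_left fun h' => hpN (h'.trans hn2),
        fun h => h.mul_left _⟩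
    unfold tt
    rw [if_congr g3 rfl rfl, if_congr g4 rfl rfl]
  have hdisj : Disjoint N.primeFactors S := Finset.disjoint_sdiff
  have hsub : (A * ((n₁ * m₁) * (n₂ * m₂))).primeFactors ⊆ N.primeFactors ∪ S := by
    intro p hp
    have hp1 := Nat.prime_of_mem_primeFactors hp
    by_cases hpN1 : p ∣ N
    · exact Finset.mem_union_left _ (Nat.mem_primeFactors.2 ⟨hp1, hpN1, hN0⟩)
    · refine Finset.mem_union_right _ (Finset.mem_sdiff.2 ⟨Nat.mem_primeFactors.2 ⟨hp1, ?_, hA2⟩,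
        fun h => hpN1 (Nat.dvd_of_mem_primeFactors h)⟩)
      rcases (hp1.dvd_mul).1 (Nat.dvd_of_mem_primeFactors hp) with h | h
      · exact h.mul_right _
      · rcases (hp1.dvd_mul).1 h with h | h
        · rcases (hp1.dvd_mul).1 h with h | h
          · exact absurd (h.trans hn1) hpN1
          · exact (h.mul_right _).mul_left _
        · rcases (hp1.dvd_mul).1 h with h | h
          · exact absurd (h.trans hn2) hpN1
          · exact (h.mul_left _).mul_left _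
  rw [Finset.prod_subset hsub, Finset.prod_union hdisj]
  · congr 1
    · unfold lN
      refine Finset.prod_congr rfl fun p hp => ?_
      rw [hpN p (Nat.prime_of_mem_primeFactors hp) (Nat.dvd_of_mem_primeFactors hp)]
    · refine Finset.prod_congr rfl fun p hp => ?_
      obtain ⟨hp1, hp2⟩ := Finset.mem_sdiff.1 hp
      have hp3 := Nat.prime_of_mem_primeFactors hp1
      rw [hpN' p hp3 fun h => hp2 (Nat.mem_primeFactors.2 ⟨hp3, h, hN0⟩)]
  · intro p hp hp'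
    have hp1 : p.Prime := by
      rcases Finset.mem_union.1 hp with h | h
      · exact Nat.prime_of_mem_primeFactors h
      · exact Nat.prime_of_mem_primeFactors (Finset.mem_sdiff.1 h).1
    have hnd : ¬ p ∣ A * ((n₁ * m₁) * (n₂ * m₂)) := fun h =>
      hp' (Nat.mem_primeFactors.2 ⟨hp1, h, hne⟩)
    have ht : tt p (n₁ * m₁) (n₂ * m₂) = 0 := by
      unfold tt
      rw [if_neg fun h => hnd ((h.mul_right _).mul_left _),
        if_neg fun h => hnd ((h.mul_left _).mul_left _)]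
    rw [ht]
    exact loc_qT_one _ p e A fun h => hnd (h.mul_right _)

end Pool.Agent.H54.ADM
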